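import Pool.Agent.H77.S6C.UV2
import Pool.Agent.H75.S6C.Ths
import Pool.Agent.H32.Dense.Split

/-!
# LEMMA X, class half: from a full block of rows to the deficits

If the block of `n` rows of both coordinates beyond the natural box of the window `x` is full up to
`e`, the deficits beyond the natural boxes of `x` and `y` differ at most by `e`, the difference of
the levels and the number of rows which are missing in the block.
-/

set_option autoImplicit false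

namespace Pool.LXC

open Finset Real
open Pool.Agent.H49.Ent Pool.Agent.H32.Dense Pool.STK Pool.KA Pool.KA.Vd Pool.KSAT Pool.K2S Pool.PB
  Pool.KS6 Pool.S6C Pool.S6U Pool.S6V

/-- Conditional entropy on an event and on a part of it. -/
theorem ch_event {Ω S T : Type} [Fintype Ω] {p : Ω → ℝ} (hp : IsLaw p) {A B : Ω → Prop}
    (hBA : Sub B A) (hA : 0 < Pe p A) (X : Ω → S) (Y : Ω → T) :
    Pe p B / Pe p A * CH (cond p B True) X Y ≤ CH (cond p A True) X Y := by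
  classical
  have hq := isLaw_cond hp hA
  by_cases hB : Pe p B = 0
  · rw [hB, zero_div, zero_mul]
    exact CH_nonneg hq.nonneg _ _
  have h1 : CH (cond p A True) X (fun ω => (Y ω, B ω)) ≤ CH (cond p A True) X Y :=
    CH_mono_cond hq.nonneg fun ω ω' _ _ h => (Prod.ext_iff.mp h).1
  refine le_trans ?_ h1
  have e1 : law (cond p A True) B True = Pe p B / Pe p A := by
    have := Pe_cond (p := p) (A := A) B
    have e2 : Pe p (fun ω => A ω ∧ B ω) = Pe p B := by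
      rw [Pe_eq, Pe_eq]
      refine Finset.sum_congr rfl fun ω _ => ?_
      by_cases h : B ω
      · rw [if_pos ⟨hBA ω h, h⟩, if_pos h]
      · rw [if_neg (fun h' => h h'.2), if_neg h]
    rw [e2] at this
    exact this
  have val : ∀ (r : Ω → ℝ) (E : Ω → Prop) (ω : Ω), E ω → cond r E True ω = r ω / law r E True := by
    intro r E ω h
    unfold Pool.Agent.H49.Ent.cond
    rw [if_pos (by simpa using h)]
  have val' : ∀ (r : Ω → ℝ) (E : Ω → Prop) (ω : Ω), ¬ E ω → cond r E True ω = 0 := by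
    intro r E ω h
    unfold Pool.Agent.H49.Ent.cond
    rw [if_neg (by simpa using h)]
  have e3 : cond (cond p A True) B True = cond p B True := by
    funext ω
    by_cases h : B ω
    · have hAω : A ω := hBA ω h
      rw [val _ _ _ h, val _ _ _ h, val _ _ _ hAω, e1]
      change p ω / Pe p A / (Pe p B / Pe p A) = p ω / Pe p B
      have := hA.ne'
      field_simp
    · rw [val' _ _ _ h, val' _ _ _ h]
  rw [Pool.Agent.H32.Dense.CH_split hq.nonneg]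
  have hmem : True ∈ univ.image B := by
    by_contra hcon
    apply hB
    rw [Pe_eq]
    refine Finset.sum_eq_zero fun ω _ => ?_
    rw [if_neg]
    intro h
    exact hcon (Finset.mem_image.2 ⟨ω, Finset.mem_univ _, by simpa using h⟩)
  refine le_trans ?_ (Finset.single_le_sum (f := fun j => law (cond p A True) B j *
    CH (cond (cond p A True) B j) X Y) (fun j _ => mul_nonneg (law_nonneg hq.nonneg _ _)
      (CH_nonneg (cond_nonneg hq.nonneg B j) _ _)) hmem)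
  rw [e1, e3]

section one

variable {J : ℕ} {F : Fam 3 J} {p : F.Ω → ℝ} {σ : Fin 3 → Fin 3} {al s t : F.Ω → ℝ} {Λ : Type}
  {Θ : F.Ω → Λ}

theorem dg_det {D D' : ℕ} (h : D ≤ D') {ω ω' : F.Ω} (e : Uni.dg D' al ω = Uni.dg D' al ω') :
    Uni.dg D al ω = Uni.dg D al ω' := fl_lift h e

theorem ald_two {D D' v : ℕ} (h : v ≤ D) (h' : v ≤ D') (ω : F.Ω) :
    |ald D al ω - ald D' al ω| ≤ 2 / 2 ^ v := by
  have h1 := dg_near D al ω
  have h2 := dg_near D' al ω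
  have h3 := pw_le h (zero_le_one (α := ℝ))
  have h4 := pw_le h' (zero_le_one (α := ℝ))
  have e1 : ald D al ω - ald D' al ω = ((Uni.dg D al ω : ℝ) / 2 ^ D - al ω) -
      ((Uni.dg D' al ω : ℝ) / 2 ^ D' - al ω) := by
    unfold ald
    ring
  have e2 : (2 : ℝ) / 2 ^ v = 1 / 2 ^ v + 1 / 2 ^ v := by ring
  rw [e1, e2]
  refine (abs_sub _ _).trans ?_
  linarith only [h1, h2, h3, h4]

theorem ald_le {B : ℝ} {D : ℕ} {ω : F.Ω} (h : |al ω| + 1 ≤ B) : |ald D al ω| ≤ B := by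
  have h1 := dg_near D al ω
  have h2 : (1 : ℝ) / 2 ^ D ≤ 1 := div_le_self zero_le_one (one_le_pow₀ (by norm_num))
  have h3 := abs_sub_abs_le_abs_sub (ald D al ω) (al ω)
  have h4 : |ald D al ω - al ω| ≤ 1 / 2 ^ D := h1
  linarith only [h, h2, h3, h4]

/-- The constant of the reduction. -/
noncomputable def RC (B : ℝ) : ℝ :=
  K1 B + ((3 : ℕ) * Real.log (6 * B + 3) + (3 : ℕ) * Real.log (6 * 2 + 3))

/-- **The reduction**, one law. -/
theorem vd_red (hp : IsLaw p) {B : ℝ} (hB : 1 ≤ B)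
    (hb : ∀ ω, 0 < p ω → |al ω| + 1 ≤ B ∧ |s ω| ≤ B ∧ |t ω| ≤ B)
    (hst : Det p Θ (fun ω => (s ω, t ω))) {r U r₂ U₂ N n : ℕ} (hr : r ≤ r₂) (hU : U + n ≤ U₂)
    (hrU : r ≤ U) (hrU₂ : r₂ ≤ U₂) (hN : U₂ ≤ N) :
    F.vdf p σ r U N (ald (U - r) al) s t (fun ω => (Uni.dg (U - r) al ω, Θ ω)) ≤
      F.vdf p σ r₂ U₂ N (ald (U₂ - r₂) al) s t (fun ω => (Uni.dg (U₂ - r₂) al ω, Θ ω)) +
      (2 * n * Real.log 2 - CH p (F.sbx σ (r + n) (U + n) N (ald (U - r) al) s t)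
        (fun ω => (F.sbx σ r U N (ald (U - r) al) s t ω, (Uni.dg (U - r) al ω, Θ ω)))) +
      (2 * ((r₂ : ℝ) - r) + ((U₂ : ℝ) - U - n)) * Real.log 2 + RC B := by
  have h0 := hp.nonneg
  have hu0 : 0 < Real.log 2 := Real.log_pos (by norm_num)
  obtain ⟨D, hD⟩ : ∃ D, D = U - r := ⟨_, rfl⟩
  obtain ⟨D₂, hD₂⟩ : ∃ D₂, D₂ = U₂ - r₂ := ⟨_, rfl⟩
  obtain ⟨D', hD'⟩ : ∃ D', D' = max D D₂ := ⟨_, rfl⟩
  obtain ⟨r', hr'⟩ : ∃ r', r' = max (r + n) r₂ := ⟨_, rfl⟩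
  rw [← hD, ← hD₂]
  have i1 : D ≤ D' := by rw [hD']; exact le_max_left _ _
  have i2 : D₂ ≤ D' := by rw [hD']; exact le_max_right _ _
  have i3 : r + n ≤ r' := by rw [hr']; exact le_max_left _ _
  have i4 : r₂ ≤ r' := by rw [hr']; exact le_max_right _ _
  have i5 : r' ≤ U₂ := by rw [hr']; exact max_le (by omega) hrU₂
  have i6 : (r' : ℝ) - (r + n : ℕ) ≤ (r₂ : ℝ) - r := by
    rcases le_total (r + n) r₂ with h | h
    · rw [hr', max_eq_right h]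
      push_cast
      have : (0 : ℝ) ≤ n := Nat.cast_nonneg n
      linarith only
    · rw [hr', max_eq_left h, sub_self]
      have : (r : ℝ) ≤ r₂ := by exact_mod_cast hr
      linarith only [this]
  -- the block
  have k1 := vdf_path (F := F) (p := p) (σ := σ) (a := ald D al) (s := s) (t := t) (r := r)
    (U := U) (N := N) (r' := r + n) (U' := U + n) hp hB (by omega) (by omega) (by omega)
    (by omega) (fun ω hω => ⟨ald_le (hb ω hω).1, (hb ω hω).2.1, (hb ω hω).2.2⟩)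
    (fun ω => (Uni.dg D al ω, Θ ω))
  -- the new frame
  have fd : ∀ E ≤ D', Fd p (fun ω => (Uni.dg D' al ω, Θ ω)) (ald E al) s t := by
    intro E hE ω ω' hω hω' e
    have e1 := Prod.ext_iff.mp e
    have e2 : Uni.dg E al ω = Uni.dg E al ω' := dg_det hE e1.1
    have e3 := Prod.ext_iff.mp (hst ω ω' hω hω' e1.2)
    refine Prod.ext ?_ (Prod.ext e3.1 e3.2)
    show ald E al ω = ald E al ω'
    unfold ald
    rw [e2]
  have k2 := vdf_step (F := F) (p := p) (σ := σ) (a := ald D al) (s := s) (t := t)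
    (a' := ald D₂ al) (s' := s) (t' := t) (r := r + n) (U := U + n) (N := N) (r' := r')
    (U' := U₂) (D := 2) hp hB (by norm_num) i3 hU (by omega) hN
    (fun ω hω => ⟨ald_le (hb ω hω).1, (hb ω hω).2.1, (hb ω hω).2.2⟩)
    (fun ω hω => by
      refine ⟨?_, ?_, ?_⟩
      · have h1 := ald_two (al := al) (D := D) (D' := D₂) (v := U + n - r') (by omega) (by omega) ω
        refine h1.trans ?_
        rw [div_le_div_iff₀ (by positivity) (by positivity), mul_assoc, ← pow_add]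
        exact mul_le_mul_of_nonneg_left (pow_le_pow_right₀ (by norm_num) (by omega)) (by norm_num)
      · rw [sub_self, abs_zero]
        positivity
      · rw [sub_self, sub_self, zero_mul, add_zero, abs_zero]
        positivity)
    (fun ω => (Uni.dg D al ω, Θ ω)) (fun ω => (Uni.dg D' al ω, Θ ω))
    (fun ω ω' _ _ e => Prod.ext (dg_det i1 (Prod.ext_iff.mp e).1) (Prod.ext_iff.mp e).2)
    (fd D i1) (fd D₂ i2)
  have k3 := CH_nonneg h0 (F.sbx σ r' U₂ N (ald D₂ al) s t)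
    (fun ω => (F.sbx σ (r + n) (U + n) N (ald D al) s t ω, (Uni.dg D' al ω, Θ ω)))
  have k4 := vdf_mono (F := F) (p := p) (σ := σ) (a := ald D₂ al) (s := s) (t := t) (N := N)
    hp i4 (le_refl U₂) (fun ω => (Uni.dg D' al ω, Θ ω))
  -- the condition
  have k5 : F.vdf p σ r₂ U₂ N (ald D₂ al) s t (fun ω => (Uni.dg D' al ω, Θ ω)) ≤
      F.vdf p σ r₂ U₂ N (ald D₂ al) s t (fun ω => (Uni.dg D₂ al ω, Θ ω)) +
        ((D' : ℝ) - D₂) * Real.log 2 := by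
    unfold Fam.vdf
    have a1 := CH_le_add h0 (F.X N) (Uni.dg D' al)
      (fun ω => (F.sbx σ r₂ U₂ N (ald D₂ al) s t ω, (Uni.dg D₂ al ω, Θ ω)))
    have a2 : CH p (F.X N) (fun ω => (Uni.dg D' al ω,
        (F.sbx σ r₂ U₂ N (ald D₂ al) s t ω, (Uni.dg D₂ al ω, Θ ω)))) ≤
        CH p (F.X N) (fun ω => (F.sbx σ r₂ U₂ N (ald D₂ al) s t ω, (Uni.dg D' al ω, Θ ω))) :=
      CH_mono_cond h0 fun ω ω' _ _ e => by
        have e1 := Prod.ext_iff.mp e
        have e2 := Prod.ext_iff.mp e1.2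
        exact Prod.ext e2.1 (Prod.ext e1.1 (Prod.ext_iff.mp e2.2).2)
    have a3 : CH p (Uni.dg D' al)
        (fun ω => (F.sbx σ r₂ U₂ N (ald D₂ al) s t ω, (Uni.dg D₂ al ω, Θ ω))) ≤
        ((D' : ℝ) - D₂) * Real.log 2 := by
      refine CH_digits hp i2 al _ ?_
      intro ω ω' _ _ e
      exact (Prod.ext_iff.mp (Prod.ext_iff.mp e).2).1
    linarith only [a1, a2, a3]
  have k6 : ((D' : ℝ) - D₂) ≤ (r₂ : ℝ) - r := by
    have : D' ≤ D₂ + (r₂ - r) := by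
      rw [hD']
      omega
    have h2 : (D' : ℝ) ≤ D₂ + ((r₂ - r : ℕ) : ℝ) := by exact_mod_cast this
    rw [Nat.cast_sub hr] at h2
    linarith only [h2]
  have k7 : ((D' : ℝ) - D₂) * Real.log 2 ≤ ((r₂ : ℝ) - r) * Real.log 2 :=
    mul_le_mul_of_nonneg_right k6 hu0.le
  have k8 : ((r' : ℝ) - (r + n : ℕ)) * Real.log 2 ≤ ((r₂ : ℝ) - r) * Real.log 2 :=
    mul_le_mul_of_nonneg_right i6 hu0.le
  unfold RC
  push_cast at k1 k2 k8 ⊢
  linarith only [k3, k4, k5, k7, k1, k2, k8]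

/-- The digits of the two coordinates are a function of the finer box. -/
theorem dig_sbx (hp : IsLaw p) {a : F.Ω → ℝ} {r U N n : ℕ} {T : Type} (c : F.Ω → T) :
    CH p (fun ω => (⌊(2 : ℝ) ^ n * (2 ^ r * co F σ a s t 0 ω)⌋,
      ⌊(2 : ℝ) ^ n * (2 ^ U * co F σ a s t 1 ω)⌋)) c ≤ CH p (F.sbx σ (r + n) (U + n) N a s t) c := by
  refine CH_mono_left hp.nonneg ?_
  intro ω ω' _ _ e
  have e1 := Prod.ext_iff.mp e
  obtain ⟨-, b1, b2, -⟩ := (sbx_ext).1 e1.1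
  have e2 : ∀ (k : ℕ) (z : ℝ), (2 : ℝ) ^ n * (2 ^ k * z) = 2 ^ (k + n) * z := by
    intro k z
    rw [pow_add]
    ring
  simp only [e2]
  rw [b1, b2]

end one

/-- The number of the rows of the block. -/
noncomputable def nb (ρ : Row) (p q k : ℝ) (x y : ℚ) (J : ℕ) : ℕ :=
  min (min (⌊(ρ.rot y - k) * J⌋₊ - ⌊(ρ.rot x - k) * J⌋₊) (⌊p * J⌋₊ - lu ρ p q k x J))
    (⌊(ρ.pi - k) * J⌋₊ - ⌊q * J⌋₊ - ⌊(ρ.rot x - k) * J⌋₊)

/-- The entropy of the block of `n` rows of both coordinates beyond the natural box. -/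
noncomputable def blk {J : ℕ} (F : Fam 3 J) (A : F.Ω → Prop) (ς : Fin 3 → Fin 3) (ρ : Row)
    (p q k : ℝ) {Λ : Type} (κ : F.Ω → Λ) (pl : Λ → Pln) (al : F.Ω → ℝ) (x : ℚ) (n : ℕ) : ℝ :=
  CH (Pool.Agent.H49.Ent.cond F.p A True) (F.sbx ς (lr p q x J + n) (lu ρ p q k x J + n) ⌊p * J⌋₊
      (ald (ld ρ p q k x J) al) (fun ω => -(pl (κ ω)).s) (fun ω => -(pl (κ ω)).c))
    (fun ω => (F.sbx ς (lr p q x J) (lu ρ p q k x J) ⌊p * J⌋₊
      (ald (ld ρ p q k x J) al) (fun ω => -(pl (κ ω)).s) (fun ω => -(pl (κ ω)).c) ω,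
      (Uni.dg (ld ρ p q k x J) al ω, (κ ω, F.W ω))))

/-- The block on an event from the block on a large part. -/
theorem blk_ev {J : ℕ} {F : Fam 3 J} {A B : F.Ω → Prop} {ς : Fin 3 → Fin 3} {ρ : Row}
    {p q k : ℝ} {Λ : Type} {κ : F.Ω → Λ} {pl : Λ → Pln} {al : F.Ω → ℝ} {x : ℚ} {n : ℕ}
    (hBA : Sub B A) (hA : 0 < Pe F.p A) {ϖ E : ℝ} (hϖ : 0 ≤ ϖ)
    (hPB : (1 - ϖ) * Pe F.p A ≤ Pe F.p B) (hE : 0 ≤ E)
    (h1 : 2 * n * Real.log 2 - E ≤ blk F B ς ρ p q k κ pl al x n) :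
    2 * n * Real.log 2 - (E + 2 * ϖ * n * Real.log 2) ≤ blk F A ς ρ p q k κ pl al x n := by
  have hu0 : 0 < Real.log 2 := Real.log_pos (by norm_num)
  have hlA := isLaw_cond F.isLaw hA
  have hPB0 := Pe_nonneg F.isLaw B
  have h2 := ch_event F.isLaw hBA hA (F.sbx ς (lr p q x J + n) (lu ρ p q k x J + n)
    ⌊p * J⌋₊ (ald (ld ρ p q k x J) al) (fun ω => -(pl (κ ω)).s) (fun ω => -(pl (κ ω)).c))
    (fun ω => (F.sbx ς (lr p q x J) (lu ρ p q k x J) ⌊p * J⌋₊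
      (ald (ld ρ p q k x J) al) (fun ω => -(pl (κ ω)).s) (fun ω => -(pl (κ ω)).c) ω,
      (Uni.dg (ld ρ p q k x J) al ω, (κ ω, F.W ω))))
  have h3 : 0 ≤ blk F A ς ρ p q k κ pl al x n := CH_nonneg hlA.nonneg _ _
  have hn : (0 : ℝ) ≤ n := Nat.cast_nonneg n
  have h4 : 0 ≤ 2 * ϖ * n * Real.log 2 := by positivity
  rcases le_total (2 * n * Real.log 2 - E) 0 with h5 | h5
  · linarith only [h3, h4, h5]
  · have h6 : 1 - ϖ ≤ Pe F.p B / Pe F.p A := by rwa [le_div_iff₀ hA]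
    have h7 : Pe F.p B / Pe F.p A * (2 * n * Real.log 2 - E) ≤ blk F A ς ρ p q k κ pl al x n :=
      (mul_le_mul_of_nonneg_left h1 (div_nonneg hPB0 hA.le)).trans h2
    have h8 : (1 - ϖ) * (2 * n * Real.log 2 - E) ≤
        Pe F.p B / Pe F.p A * (2 * n * Real.log 2 - E) := mul_le_mul_of_nonneg_right h6 h5
    have h9 : 0 ≤ ϖ * E := mul_nonneg hϖ hE
    have h10 : (1 - ϖ) * (2 * n * Real.log 2 - E) = 2 * n * Real.log 2 - E -
      2 * ϖ * n * Real.log 2 + ϖ * E := by ring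
    linarith only [h7, h8, h9]

/-- The block from the digits of the two coordinates on a large event. -/
theorem blk_of_ev {J : ℕ} {F : Fam 3 J} {A B : F.Ω → Prop} {ς : Fin 3 → Fin 3} {ρ : Row}
    {p q k : ℝ} {Λ : Type} {κ : F.Ω → Λ} {pl : Λ → Pln} {al : F.Ω → ℝ} {x : ℚ} {n : ℕ}
    (hBA : Sub B A) (hA : 0 < Pe F.p A) (hB : 0 < Pe F.p B) {ϖ E : ℝ} (hϖ : 0 ≤ ϖ)
    (hPB : (1 - ϖ) * Pe F.p A ≤ Pe F.p B) (hE : 0 ≤ E)
    (h : 2 * n * Real.log 2 - E ≤ CH (Pool.Agent.H49.Ent.cond F.p B True)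
      (fun ω => (⌊(2 : ℝ) ^ n * (2 ^ lr p q x J * co F ς (ald (ld ρ p q k x J) al)
          (fun ω => -(pl (κ ω)).s) (fun ω => -(pl (κ ω)).c) 0 ω)⌋,
        ⌊(2 : ℝ) ^ n * (2 ^ lu ρ p q k x J * co F ς (ald (ld ρ p q k x J) al)
          (fun ω => -(pl (κ ω)).s) (fun ω => -(pl (κ ω)).c) 1 ω)⌋))
      (fun ω => (F.sbx ς (lr p q x J) (lu ρ p q k x J) ⌊p * J⌋₊
        (ald (ld ρ p q k x J) al) (fun ω => -(pl (κ ω)).s) (fun ω => -(pl (κ ω)).c) ω,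
        (Uni.dg (ld ρ p q k x J) al ω, (κ ω, F.W ω))))) :
    2 * n * Real.log 2 - (E + 2 * ϖ * n * Real.log 2) ≤ blk F A ς ρ p q k κ pl al x n :=
  blk_ev hBA hA hϖ hPB hE (h.trans (dig_sbx (N := ⌊p * J⌋₊) (isLaw_cond F.isLaw hB) _))

/-- **(BLK)** LEMMA X in the class: the block of both coordinates beyond the natural box is full. -/
def BLKStmt : Prop :=
  ∀ (S : PCl 3) (a R h₁ : ℝ) (i₀ : Fin 3) (c s₂ : ℝ) (r : ℝ → ℝ) (D : Set ℝ) (σ : ℝ → Row),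
    Cs S a R h₁ i₀ c s₂ r D σ → ∀ (act : ℚ → ℝ) (κ : ℝ), ActD S i₀ act κ →
    ∀ (T p : ℝ) (v : ℚ) (q H : ℝ), PV (σ 1) T p v q H → ∀ a₀ α : ℝ, AcP act q a₀ α →
    ∀ x y : ℚ, v ≤ x → (v < x ∨ p < T + q) → x < y → (y : ℝ) < p → p - x < H → ∀ η : ℝ, 0 < η →
      ∃ k₀ : ℝ, 0 < k₀ ∧ ∀ k : ℝ, 0 < k → k ≤ k₀ → ∀ C : ℝ, 1 ≤ C → Clp S (fun J F A =>
        ∀ ς : Fin 3 → Fin 3, Function.Injective ς → ς 0 = i₀ →
        ∀ (Λ : Type) (κ : F.Ω → Λ) (pl : Λ → Pln) (al : F.Ω → ℝ),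
        PkL F A ς ⌊(v : ℝ) * J⌋₊ ⌊((σ 1).rot v - k) * J⌋₊ ⌊T * J⌋₊ C κ pl →
        NSt F A ς ⌊(T - v - k) * J⌋₊ ⌊(H - k) * J⌋₊ C κ pl →
        OwnS F A ς ⌊((σ 1).pi - k) * J⌋₊ C al →
        2 * (nb (σ 1) p q k x y J : ℕ) * Real.log 2 - (5 * (y - x) + η) * J * Real.log 2 ≤
          blk F A ς (σ 1) p q k κ pl al x (nb (σ 1) p q k x y J))

theorem lev_aux {xw yw lx ly Q N Lp r r₂ U U₂ n : ℕ} (e1 : r = min (xw + Q) N)
    (e2 : r₂ = min (yw + Q) N) (e3 : U = min (xw + lx + Q) N) (e4 : U₂ = min (yw + ly + Q) N)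
    (e5 : n = min (min (ly - lx) (N - U)) (Lp - Q - lx)) (i1 : xw ≤ yw) (i2 : lx ≤ ly) :
    r ≤ r₂ ∧ U + n ≤ U₂ ∧ r ≤ U ∧ r₂ ≤ U₂ ∧ U₂ ≤ N ∧
      2 * (r₂ - r) + (U₂ - (U + n)) ≤ 3 * (yw - xw) + (ly + Q - Lp) := by
  omega

/-- **The reduction in the class.** -/
theorem lx_of_blk (hB : BLKStmt) : LXStmt := by
  intro S a R h₁ i₀ c s₂ r D σ hC act κ₀ hact T p v q H hPV a₀ α hAc x y hvx hvx' hxy hyp hH η hη
  have hu0 : 0 < Real.log 2 := Real.log_pos (by norm_num)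
  have hv0 : (0 : ℚ) < v := hPV.v0
  have hx0 : (0 : ℚ) < x := hv0.trans_le hvx
  have hy1 : (y : ℚ) ≤ 1 := by
    have : (y : ℝ) ≤ 1 := hyp.le.trans hPV.p1.le
    exact_mod_cast this
  have hx0r : (0 : ℝ) < x := by exact_mod_cast hx0
  have hxyr : (x : ℝ) < y := by exact_mod_cast hxy
  have hR1 := hC.row 1 one_pos le_rfl hC.D1
  have hrot : (σ 1).rot x ≤ (σ 1).rot y :=
    rw_thm S a R h₁ i₀ c s₂ r D σ hC 1 one_pos le_rfl hC.D1 x y hx0.le hxy.le hy1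
  have hroty : 0 ≤ (σ 1).rot y := num_nonneg hC.ne (hR1.rot y (hx0.le.trans hxy.le) hy1)
  obtain ⟨k₀, hk₀, h1⟩ := hB S a R h₁ i₀ c s₂ r D σ hC act κ₀ hact T p v q H hPV a₀ α hAc x y hvx
    hvx' hxy hyp hH (η / 4) (by positivity)
  refine ⟨min k₀ (η / 8), lt_min hk₀ (by positivity), fun k hk hkk C hC1 => ?_⟩
  have hk1 : k ≤ k₀ := hkk.trans (min_le_left _ _)
  have hk2 : k ≤ η / 8 := hkk.trans (min_le_right _ _)
  have c1 := h1 k hk hk1 C hC1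
  have c2 : Clp S (fun J F A => 0 < Pe F.p A) :=
    Clp.base 1 one_pos 0 fun J _ F A hS => lt_of_lt_of_le (Real.exp_pos _) (hC.st _ _ _ _ hS).2.2.2
  obtain ⟨B, hBd⟩ : ∃ B, B = C + 5 := ⟨_, rfl⟩
  obtain ⟨J₁, hJ₁⟩ := exists_nat_gt ((5 + RC B / Real.log 2) / (η / 4))
  refine Clp.mono (J₂ := J₁) (c1.and c2) ?_
  rintro J hJ F A ⟨d1, hA0⟩ ς hς hς0 Λ κ pl al hP hN hO
  have hblk := d1 ς hς hς0 Λ κ pl al hP hN hO
  have hJr : (5 + RC B / Real.log 2) / (η / 4) < J := hJ₁.trans_le (by exact_mod_cast hJ)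
  rw [div_lt_iff₀ (by positivity)] at hJr
  have hJ0 : (0 : ℝ) ≤ J := Nat.cast_nonneg J
  have hlaw := isLaw_cond F.isLaw hA0
  have hsup : ∀ ω, 0 < Pool.Agent.H49.Ent.cond F.p A True ω → A ω := by
    intro ω hω
    unfold Pool.Agent.H49.Ent.cond at hω
    by_contra hcon
    have : ¬ (A ω = True) := fun e => hcon (by rw [e]; trivial)
    rw [if_neg this] at hω
    exact lt_irrefl _ hω
  obtain ⟨n, hn⟩ : ∃ n, n = nb (σ 1) p q k x y J := ⟨_, rfl⟩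
  rw [← hn] at hblk
  -- the natural numbers
  obtain ⟨xw, hxw⟩ : ∃ xw, xw = ⌊(x : ℝ) * J⌋₊ := ⟨_, rfl⟩
  obtain ⟨yw, hyw⟩ : ∃ yw, yw = ⌊(y : ℝ) * J⌋₊ := ⟨_, rfl⟩
  obtain ⟨lx, hlx⟩ : ∃ lx, lx = ⌊((σ 1).rot x - k) * J⌋₊ := ⟨_, rfl⟩
  obtain ⟨ly, hly⟩ : ∃ ly, ly = ⌊((σ 1).rot y - k) * J⌋₊ := ⟨_, rfl⟩
  obtain ⟨Q, hQ⟩ : ∃ Q, Q = ⌊q * J⌋₊ := ⟨_, rfl⟩
  obtain ⟨N, hNN⟩ : ∃ N, N = ⌊p * J⌋₊ := ⟨_, rfl⟩
  obtain ⟨Lp, hLp⟩ : ∃ Lp, Lp = ⌊((σ 1).pi - k) * J⌋₊ := ⟨_, rfl⟩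
  have e1 : lr p q x J = min (xw + Q) N := by rw [hxw, hQ, hNN]; rfl
  have e2 : lr p q y J = min (yw + Q) N := by rw [hyw, hQ, hNN]; rfl
  have e3 : lu (σ 1) p q k x J = min (xw + lx + Q) N := by rw [hxw, hlx, hQ, hNN]; rfl
  have e4 : lu (σ 1) p q k y J = min (yw + ly + Q) N := by rw [hyw, hly, hQ, hNN]; rfl
  have e5 : n = min (min (ly - lx) (N - lu (σ 1) p q k x J)) (Lp - Q - lx) := by
    rw [hn, hly, hlx, hQ, hNN, hLp]
    rfl
  have i1 : xw ≤ yw := by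
    rw [hxw, hyw]
    exact Nat.floor_le_floor (mul_le_mul_of_nonneg_right hxyr.le hJ0)
  have i2 : lx ≤ ly := by
    rw [hlx, hly]
    exact Nat.floor_le_floor (mul_le_mul_of_nonneg_right (by linarith only [hrot]) hJ0)
  obtain ⟨j1, j2, j3, j4, j5, i3⟩ := lev_aux e1 e2 e3 e4 e5 i1 i2
  have key := vd_red (F := F) (p := Pool.Agent.H49.Ent.cond F.p A True) (σ := ς) (al := al)
    (s := fun ω => -(pl (κ ω)).s) (t := fun ω => -(pl (κ ω)).c) (Θ := fun ω => (κ ω, F.W ω))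
    (r := lr p q x J) (U := lu (σ 1) p q k x J) (r₂ := lr p q y J) (U₂ := lu (σ 1) p q k y J)
    (N := ⌊p * J⌋₊) (n := n) (B := B) hlaw (by rw [hBd]; linarith only [hC1])
    (fun ω hω => by
      have hA := hsup ω hω
      have h2 := hP.inc ω hA
      have h3 := hO.bd ω hA
      refine ⟨by rw [hBd]; linarith only [h3], ?_, ?_⟩
      · rw [abs_neg]
        have := h2.s_le
        linarith only [hC1, hBd, this]
      · rw [abs_neg]
        have := h2.c_le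
        linarith only [hC1, hBd, this])
    (fun ω ω' _ _ e => by
      have h2 : κ ω = κ ω' := (Prod.ext_iff.mp e).1
      beta_reduce
      rw [h2])
    j1 j2 j3 j4 (by rw [← hNN]; exact j5)
  have i6 : 2 * ((lr p q y J : ℝ) - lr p q x J) + ((lu (σ 1) p q k y J : ℝ) -
      lu (σ 1) p q k x J - n) ≤ 3 * ((yw : ℝ) - xw) + ((ly + Q - Lp : ℕ) : ℝ) := by
    have h2 : ((2 * (lr p q y J - lr p q x J) + (lu (σ 1) p q k y J -
        (lu (σ 1) p q k x J + n)) : ℕ) : ℝ) ≤ ((3 * (yw - xw) + (ly + Q - Lp) : ℕ) : ℝ) := by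
      exact_mod_cast i3
    rw [Nat.cast_add, Nat.cast_add, Nat.cast_mul, Nat.cast_mul, Nat.cast_sub j1, Nat.cast_sub j2,
      Nat.cast_sub i1] at h2
    push_cast at h2 ⊢
    linarith only [h2]
  have f1 : (yw : ℝ) - xw ≤ (y - x) * J + 1 := by
    have h2 : (yw : ℝ) ≤ y * J := by
      rw [hyw]
      exact Nat.floor_le (mul_nonneg (by linarith only [hx0r, hxyr]) hJ0)
    have h3 : (x : ℝ) * J < xw + 1 := by rw [hxw]; exact Nat.lt_floor_add_one _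
    linarith only [h2, h3]
  obtain ⟨M, hM⟩ : ∃ M, M = max 0 ((σ 1).rot y + q - (σ 1).pi) := ⟨_, rfl⟩
  have hM0 : 0 ≤ M := by rw [hM]; exact le_max_left _ _
  have hM1 : (σ 1).rot y + q - (σ 1).pi ≤ M := by rw [hM]; exact le_max_right _ _
  have f2 : ((ly + Q - Lp : ℕ) : ℝ) ≤ M * J + k * J + 1 := by
    rcases Nat.lt_or_ge (ly + Q) Lp with h | h
    · rw [Nat.sub_eq_zero_of_le h.le, Nat.cast_zero]
      have := mul_nonneg hM0 hJ0
      have := mul_nonneg hk.le hJ0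
      linarith
    · rw [Nat.cast_sub h, Nat.cast_add]
      have h2 : (ly : ℝ) ≤ (σ 1).rot y * J := by
        have h4 : (ly : ℝ) ≤ ⌊(σ 1).rot y * J⌋₊ := by
          rw [hly]
          exact_mod_cast Nat.floor_le_floor (mul_le_mul_of_nonneg_right (by linarith only [hk]) hJ0)
        exact h4.trans (Nat.floor_le (mul_nonneg hroty hJ0))
      have h3 : (Q : ℝ) ≤ q * J := by
        rw [hQ]
        exact Nat.floor_le (mul_nonneg hPV.q0 hJ0)
      have h4 : ((σ 1).pi - k) * J < Lp + 1 := by rw [hLp]; exact Nat.lt_floor_add_one _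
      have h5 := mul_le_mul_of_nonneg_right hM1 hJ0
      linarith only [h2, h3, h4, h5]
  have f3 : RC B = RC B / Real.log 2 * Real.log 2 := by field_simp
  have f4 : 2 * ((lr p q y J : ℝ) - lr p q x J) + ((lu (σ 1) p q k y J : ℝ) -
      lu (σ 1) p q k x J - n) + RC B / Real.log 2 ≤
      (3 * (y - x) + 2 * M + 3 * η / 4) * J := by
    have h2 := mul_nonneg hM0 hJ0
    have h3 := mul_le_mul_of_nonneg_right hk2 hJ0
    have h4 := mul_nonneg hη.le hJ0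
    linarith only [hJr, i6, f1, f2, h2, h3, h4]
  have f5 := mul_le_mul_of_nonneg_right f4 hu0.le
  unfold Vd
  unfold ld
  unfold blk ld at hblk
  rw [← hM]
  linarith only [hblk, key, f3, f5]

end Pool.LXC
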